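import Pool.Agent.H211.AD.Stm
set_option autoImplicit false
open Metric Set MeasureTheory Filter Topology

namespace Pool.Agent.H628.AD211
open Pool.Agent.H211.AD

lemma loc_inv {f : ℂ → ℂ} {U : Set ℂ} {a : ℂ} (hf : AnalyticAt ℂ f a) (hd : deriv f a ≠ 0)
    (hU : U ∈ 𝓝 a) :
    ∃ ψ : ℂ → ℂ, ∃ s > 0, DifferentiableOn ℂ ψ (ball (f a) s) ∧
      (∀ x ∈ ball (f a) s, ψ x ∈ U ∧ f (ψ x) = x) ∧ ∀ᶠ z in 𝓝 a, ψ (f z) = z := by
  have hs : HasStrictDerivAt f (deriv f a) a := hf.hasStrictDerivAt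
  have hE := hs.hasStrictFDerivAt_equiv hd
  have hc : ContDiffAt ℂ 1 f a := hf.contDiffAt
  have hS := hc.hasStrictFDerivAt' hE.hasFDerivAt one_ne_zero
  set ψ := hc.localInverse hE.hasFDerivAt one_ne_zero with hψ
  have c1 : ContDiffAt ℂ 1 ψ (f a) := hc.to_localInverse hE.hasFDerivAt one_ne_zero
  have c2 : ∀ᶠ y in 𝓝 (f a), DifferentiableAt ℂ ψ y := by
    filter_upwards [c1.eventually (by simp)] with y hy
    exact hy.differentiableAt one_ne_zero
  have c3 : ∀ᶠ y in 𝓝 (f a), f (ψ y) = y := hS.eventually_right_inverse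
  have c4 : ψ (f a) = a := hc.localInverse_apply_image hE.hasFDerivAt one_ne_zero
  have c5 : ∀ᶠ y in 𝓝 (f a), ψ y ∈ U := by
    have : Tendsto ψ (𝓝 (f a)) (𝓝 a) := by
      have := c1.continuousAt
      rwa [ContinuousAt, c4] at this
    exact this hU
  have c6 : ∀ᶠ z in 𝓝 a, ψ (f z) = z := hS.eventually_left_inverse
  obtain ⟨s, hs0, hsb⟩ := Metric.eventually_nhds_iff_ball.1 (c2.and (c3.and c5))
  exact ⟨ψ, s, hs0, fun y hy => (hsb y hy).1.differentiableWithinAt,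
    fun y hy => ⟨(hsb y hy).2.2, (hsb y hy).2.1⟩, c6⟩

theorem t_LS : S_LS := by
  intro f U K Cr ℓ δ₀ Cp rp c₀ μ hS r' hr'
  have hKQ : K ⊆ cthickening δ₀ K := self_subset_cthickening K
  -- the property for one critical point
  have key : ∀ c ∈ Cr, ∃ s > 0, ∀ z ∈ cthickening δ₀ K, ∀ s' ≤ s, ‖f z - f c‖ < s' →
        (∃ c' ∈ Cr, f c' = f c ∧ ‖z - c'‖ < r') ∨
        ∃ ψ : ℂ → ℂ, DifferentiableOn ℂ ψ (ball (f c) s') ∧ ψ (f z) = z ∧
          ∀ x ∈ ball (f c) s', ψ x ∈ U ∧ f (ψ x) = x := by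
    intro c hc
    have hcpt : IsCompact (cthickening δ₀ K) := hS.cpt.cthickening
    refine hcpt.induction_on (p := fun X => ∃ s > 0, ∀ z ∈ X, ∀ s' ≤ s, ‖f z - f c‖ < s' →
        (∃ c' ∈ Cr, f c' = f c ∧ ‖z - c'‖ < r') ∨
        ∃ ψ : ℂ → ℂ, DifferentiableOn ℂ ψ (ball (f c) s') ∧ ψ (f z) = z ∧
          ∀ x ∈ ball (f c) s', ψ x ∈ U ∧ f (ψ x) = x) ?_ ?_ ?_ ?_
    · exact ⟨1, one_pos, fun z hz => absurd hz (notMem_empty z)⟩
    · rintro X Y hXY ⟨s, hs, h⟩
      exact ⟨s, hs, fun z hz => h z (hXY hz)⟩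
    · rintro X Y ⟨s, hs, h⟩ ⟨s', hs', h'⟩
      refine ⟨min s s', lt_min hs hs', ?_⟩
      rintro z (hz | hz) s'' hs''
      · exact h z hz s'' (hs''.trans (min_le_left _ _))
      · exact h' z hz s'' (hs''.trans (min_le_right _ _))
    · intro x hx
      have hxU : x ∈ U := hS.thick hx
      have hUx : U ∈ 𝓝 x := hS.openU.mem_nhds hxU
      have hfx : AnalyticAt ℂ f x := hS.diff.analyticOnNhd hS.openU x hxU
      by_cases hne : f x = f c
      · have hxK : x ∈ K := hS.bwd x hxU (by rw [hne]; exact hS.fwd c (hS.critK c hc))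
        by_cases hd : deriv f x = 0
        · have hxC : x ∈ Cr := by
            rcases hS.crit x hxU hd with h | h
            · exact h
            · exact absurd ⟨fun i hi => absurd hi (Nat.not_lt_zero i), hKQ hxK⟩ (h 0)
          refine ⟨ball x r', mem_nhdsWithin_of_mem_nhds (ball_mem_nhds x hr'), 1, one_pos, ?_⟩
          intro z hz s' _ _
          exact Or.inl ⟨x, hxC, hne, by rwa [mem_ball, dist_eq_norm] at hz⟩
        · obtain ⟨ψ, s, hs, h1, h2, h3⟩ := loc_inv hfx hd hUx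
          refine ⟨{z | ψ (f z) = z}, mem_nhdsWithin_of_mem_nhds h3, s, hs, ?_⟩
          intro z hz s' hs' _
          rw [hne] at h1 h2
          exact Or.inr ⟨ψ, h1.mono (ball_subset_ball hs'), hz,
            fun y hy => h2 y (ball_subset_ball hs' hy)⟩
      · have hpos : 0 < ‖f x - f c‖ := norm_pos_iff.2 (sub_ne_zero.2 hne)
        have hcont : ContinuousAt (fun z => ‖f z - f c‖) x :=
          (hfx.continuousAt.sub continuousAt_const).norm
        have hev : ∀ᶠ z in 𝓝 x, ‖f x - f c‖ / 2 < ‖f z - f c‖ :=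
          hcont.eventually (lt_mem_nhds (by linarith))
        refine ⟨{z | ‖f x - f c‖ / 2 < ‖f z - f c‖}, mem_nhdsWithin_of_mem_nhds hev,
          ‖f x - f c‖ / 2, by linarith, ?_⟩
        intro z hz s' hs' hlt
        exfalso
        have : ‖f x - f c‖ / 2 < ‖f z - f c‖ := hz
        linarith
  choose! s hs hprop using key
  obtain ⟨s₀, hs₀, hle⟩ : ∃ s₀ > 0, ∀ c ∈ Cr, s₀ ≤ s c := by
    rcases Cr.eq_empty_or_nonempty with h | h
    · exact ⟨1, one_pos, fun c hc => by simp [h] at hc⟩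
    · obtain ⟨c, hc, hmin⟩ := Cr.exists_min_image s h
      exact ⟨s c, hs c hc, hmin⟩
  exact ⟨s₀, hs₀, fun c hc z hz hlt => hprop c hc z hz s₀ (hle c hc) hlt⟩

end Pool.Agent.H628.AD211
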