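import Pool.Agent.H211.AD.Stm
set_option autoImplicit false
open Metric Set MeasureTheory Filter Topology

namespace Pool.Agent.H628.AD211
open Pool.Agent.H211.AD

lemma iter_an {f : ℂ → ℂ} {U : Set ℂ} (hU : IsOpen U) (hf : DifferentiableOn ℂ f U) (n : ℕ) {p : ℂ}
    (hp : ∀ i < n, f^[i] p ∈ U) : AnalyticAt ℂ f^[n] p := by
  induction n with
  | zero => exact analyticAt_id
  | succ n ih =>
    rw [Function.iterate_succ']
    have h1 := ih (fun i hi => hp i (by omega))
    have h2 : AnalyticAt ℂ f (f^[n] p) := (hf.analyticOnNhd hU) _ (hp n (by omega))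
    exact h2.comp h1

theorem t_UNIQ : S_UNIQ := by
  intro f U hU hf n y y' R R' g g' hg hg' w hw hgw x hx
  have hSo : IsOpen (ball y R ∩ ball y' R') := isOpen_ball.inter isOpen_ball
  have hSc : IsPreconnected (ball y R ∩ ball y' R') :=
    ((convex_ball y R).inter (convex_ball y' R')).isPreconnected
  have ga : AnalyticOnNhd ℂ g (ball y R ∩ ball y' R') :=
    (hg.1.mono inter_subset_left).analyticOnNhd hSo
  have ga' : AnalyticOnNhd ℂ g' (ball y R ∩ ball y' R') :=
    (hg'.1.mono inter_subset_right).analyticOnNhd hSo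
  have hF : AnalyticAt ℂ f^[n] (g w) := iter_an hU hf n (hg.2 w hw.1).1
  have hnear : ∀ᶠ v in 𝓝 w, v ∈ ball y R ∩ ball y' R' := hSo.mem_nhds hw
  have hd : deriv f^[n] (g w) ≠ 0 := by
    intro h0
    have h1 : HasDerivAt (fun v => f^[n] (g v)) (deriv f^[n] (g w) * deriv g w) w :=
      HasDerivAt.comp w hF.differentiableAt.hasDerivAt (ga w hw).differentiableAt.hasDerivAt
    have h2 : (fun v => f^[n] (g v)) =ᶠ[𝓝 w] id := by
      filter_upwards [hnear] with v hv
      exact (hg.2 v hv.1).2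
    have h3 := (h1.congr_of_eventuallyEq h2.symm).unique (hasDerivAt_id w)
    rw [h0, zero_mul] at h3
    exact zero_ne_one h3
  have hs : HasStrictDerivAt f^[n] (deriv f^[n] (g w)) (g w) := hF.hasStrictDerivAt
  have hinv := hs.eventually_left_inverse hd
  have e1 : ∀ᶠ v in 𝓝 w, g v = g' v := by
    have t1 : Tendsto g (𝓝 w) (𝓝 (g w)) := (ga w hw).continuousAt
    have t2 : Tendsto g' (𝓝 w) (𝓝 (g w)) := hgw ▸ (ga' w hw).continuousAt
    filter_upwards [hnear, t1.eventually hinv, t2.eventually hinv] with v hv a1 a2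
    rw [(hg.2 v hv.1).2] at a1
    rw [(hg'.2 v hv.2).2] at a2
    rw [← a1, ← a2]
  exact ga.eqOn_of_preconnected_of_eventuallyEq ga' hSc hw e1 hx

end Pool.Agent.H628.AD211
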